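import Pool.Agent.MP_0bb195_co.d3.Core

/-!
The words with a single letter `3` at the end, and the full list of rules.
-/

namespace Pool.Agent.MP_0bb195_co.D3

variable {r s x ρ κ g T : ℕ} {u z e y : List ℕ}

lemma run_le : ∀ z : List ℕ, run s z ≤ z.length
  | [] => le_rfl
  | x :: z => by
    have := run_le z
    simp only [run, List.length_cons]
    split_ifs <;> omega

lemma run_lt : ∀ (z : List ℕ) (c : ℕ), c < run s z → z.getD c 0 < s
  | [], c, h => by simp [run] at h
  | x :: z, c, h => by
    by_cases hx : x < s
    · rw [run, if_pos hx] at h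
      cases c with
      | zero => exact hx
      | succ c => exact run_lt z c (by omega)
    · rw [run, if_neg hx] at h; omega

lemma run_ge : ∀ z : List ℕ, run s z < z.length → s ≤ z.getD (run s z) 0
  | [], h => by simp at h
  | x :: z, h => by
    by_cases hx : x < s
    · rw [run, if_pos hx] at h ⊢
      exact run_ge z (by simpa using h)
    · rw [run, if_neg hx]; exact not_lt.1 hx

lemma run_app (h : s ≤ x) : ∀ z : List ℕ, run s (z ++ x :: y) = run s z
  | [] => by simp [run, not_lt.2 h]
  | a :: z => by simp only [List.cons_append, run, run_app h z]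

lemma run_set : ∀ (z : List ℕ) (j : ℕ), run s z < j → run s (z.set j x) = run s z
  | [], _, _ => by simp
  | a :: z, 0, h => by omega
  | a :: z, j + 1, h => by
    by_cases ha : a < s
    · rw [run, if_pos ha] at h
      rw [List.set_cons_succ, run, run, if_pos ha, if_pos ha, run_set z j (by omega)]
    · rw [List.set_cons_succ, run, run, if_neg ha, if_neg ha]

lemma sum_set : ∀ (z : List ℕ) (j : ℕ), j < z.length →
    (z.set j x).sum + z.getD j 0 = z.sum + x
  | [], _, h => by simp at h
  | a :: z, 0, _ => by simp; omega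
  | a :: z, j + 1, h => by
    have := sum_set z j (by simpa using h)
    simp only [List.set_cons_succ, List.sum_cons, List.getD_cons_succ]; omega

lemma getD_set : ∀ (z : List ℕ) (j a : ℕ), j < z.length →
    (z.set j x).getD a 0 = if a = j then x else z.getD a 0
  | [], _, _, h => by simp at h
  | _ :: z, 0, 0, _ => by simp
  | _ :: z, 0, a + 1, _ => by simp
  | _ :: z, j + 1, 0, _ => by simp
  | _ :: z, j + 1, a + 1, h => by
    simp only [List.set_cons_succ, List.getD_cons_succ, getD_set z j a (by simpa using h),
      Nat.add_right_cancel_iff]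

lemma set_self : ∀ (z : List ℕ) (j : ℕ), z.set j (z.getD j 0) = z
  | [], _ => by simp
  | _ :: z, 0 => by simp
  | _ :: z, j + 1 => by simp only [List.set_cons_succ, List.getD_cons_succ, set_self z j]

/-- Exchange of `1` and `2` at the partner of the first letter `2`. -/
def tog (u : List ℕ) : List ℕ :=
  u.set (u.length - 1 - run 2 u) (3 - u.getD (u.length - 1 - run 2 u) 0)

lemma tog_spec (hL : L 2 u) (hO : Ok u) (h : 2 * run 2 u + 2 ≤ u.length) :
    (tog u).length = u.length ∧ run 2 (tog u) = run 2 u ∧ L 2 (tog u) ∧ Ok (tog u) ∧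
      ((tog u).sum = u.sum + 1 ∨ (tog u).sum + 1 = u.sum) ∧ tog (tog u) = u := by
  have k1 : (tog u).length = u.length := List.length_set
  have k2 : run 2 (tog u) = run 2 u := run_set _ _ (by omega)
  have hj : u.length - 1 - run 2 u < u.length := by omega
  have k3 := hL.getD hj
  have k4 := run_ge (s := 2) u (by omega)
  refine ⟨k1, k2, fun a ha => ?_, fun a b e ha hb => ?_, ?_, ?_⟩
  · rcases List.mem_or_eq_of_mem_set ha with h | h
    · exact hL a h
    · omega
  · rw [k1] at e
    rw [tog, getD_set _ _ _ hj] at ha hb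
    split_ifs at ha hb with h1 h2 h2
    · omega
    · rw [show b = run 2 u by omega] at hb; omega
    · rw [show a = run 2 u by omega] at ha; omega
    · exact hO a b e ha hb
  · have := sum_set (x := 3 - u.getD (u.length - 1 - run 2 u) 0) u _ hj
    rw [tog]; omega
  · rw [tog, k1, k2, tog, getD_set _ _ _ hj, if_pos rfl, List.set_set,
      show 3 - (3 - u.getD (u.length - 1 - run 2 u) 0) = u.getD (u.length - 1 - run 2 u) 0 by omega,
      set_self]

lemma one_of (hL : L 2 u) {c : ℕ} (h : c < run 2 u) : u.getD c 0 = 1 := by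
  have := run_lt u c h
  have := hL.getD (i := c) (by have := run_le (s := 2) u; omega)
  omega

lemma len_ge (hL : L 2 u) (hO : Ok u) : 2 * run 2 u ≤ u.length := by
  by_contra h
  have := run_le (s := 2) u
  exact hO (run 2 u - 1) (u.length - run 2 u) (by omega) (one_of hL (by omega))
    (one_of hL (by omega))

lemma ones (hL : L 2 u) (hO : Ok u) (h : u.length ≤ 2 * run 2 u + 1) {a : ℕ}
    (ha : u.getD a 0 = 1) : a < run 2 u := by
  by_contra hn
  have la : a < u.length := not_le.1 fun h => by rw [List.getD_eq_default _ _ h] at ha; omega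
  by_cases e : a = run 2 u
  · have := run_ge (s := 2) u (by omega)
    rw [← e] at this; omega
  · exact hO a (u.length - 1 - a) (by omega) ha (one_of hL (by omega))

/-- The difference that passes a multiple of the multiplicity. -/
def B (r : ℕ) (u z : List ℕ) : ℕ := if r = 2 then u.length + 2 else run 2 z + u.length + 2

/-- A word cut at its first largest letter `r`. -/
def Good (κ g r : ℕ) (u z : List ℕ) : Prop :=
  (r = 2 ∨ r = 3) ∧ L (r - 1) u ∧ L r z ∧ V (z ++ r :: u) ∧ z.sum + r + u.sum = g ∧
    max (M z) (B r u z) = κ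

/-- The inverse of the injection. -/
def back (κ r : ℕ) (u z : List ℕ) : ℕ × List ℕ × List ℕ :=
  if r = 2 then
    if z.getD 0 0 = 1 then (2, u, z.tail)
    else (3, List.replicate ((κ - 2) / 2) 1 ++ List.replicate ((κ - 2) / 2) 2, [])
  else if M z = κ ∧ 1 ≤ run 2 z then (3, u, z.tail)
  else if M z = κ ∧ u.length + 2 < κ then (3, u, 1 :: z.tail)
  else if z.drop (κ - 2 - u.length) = [] then
    if u.length = 2 * run 2 u + 1 then (3, u.dropLast, List.replicate (κ - 2 - u.length + 1) 1)
    else (3, tog u, z)
  else if z.drop (κ - 2 - u.length) = [2] then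
    if u.length = 2 * run 2 u then (3, u ++ [2], List.replicate (κ - 2 - u.length - 1) 1)
    else (3, tog u, List.replicate (κ - 2 - u.length) 1)
  else (3, u, List.replicate (κ - 2 - u.length) 1 ++
    bk (if u.length + 2 = κ then κ else κ - 1) (z.drop (κ - 2 - u.length)))

lemma good_three (hu : L 2 u) (he : L 3 e) (h0 : run 2 e = 0) (hV : V (e ++ 3 :: u))
    (hM : M e ≤ κ) (hT : T + u.length + 2 = κ) (hg : T + e.sum + 3 + u.sum = g) :
    Good κ g 3 u (List.replicate T 1 ++ e) := by
  refine ⟨Or.inr rfl, hu, L_append.2 ⟨L_rep (by omega), he⟩, ?_, ?_, ?_⟩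
  · rw [List.append_assoc, V_rep]; exact hV
  · simpa using hg
  · rw [M_rep, B, if_neg (by omega), run_rep]; omega

lemma back_three (h0 : run 2 e = 0) (hM : M e < κ ∨ T = 0) (hT : T + u.length + 2 = κ) :
    back κ 3 u (List.replicate T 1 ++ e) =
      if e = [] then
        if u.length = 2 * run 2 u + 1 then (3, u.dropLast, List.replicate (T + 1) 1)
        else (3, tog u, List.replicate T 1 ++ e)
      else if e = [2] then
        if u.length = 2 * run 2 u then (3, u ++ [2], List.replicate (T - 1) 1)
        else (3, tog u, List.replicate T 1)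
      else (3, u, List.replicate T 1 ++ bk (if u.length + 2 = κ then κ else κ - 1) e) := by
  rw [back, if_neg (by omega), M_rep, run_rep, if_neg (by omega), if_neg (by omega),
    show κ - 2 - u.length = T by omega, List.drop_left' (by simp)]

/-- Words with one letter `3`, followed by the largest number of letters `1`. -/
lemma single (hu : L 2 u) (hO : Ok u) (hT : T + u.length + 2 = κ) :
    ∃ r' u' z', Good κ (T + 3 + u.sum + 1) r' u' z' ∧
      back κ r' u' z' = (3, u, List.replicate T 1) := by
  have h1 := len_ge hu hO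
  have v3 : ∀ {y : List ℕ}, L 2 y → Ok y → V ([] ++ 3 :: y) := fun h h' => ⟨V_low h, fun _ => h'⟩
  have v4 : ∀ {y : List ℕ}, L 2 y → Ok y → V ([2] ++ 3 :: y) := fun h h' => ⟨v3 h h', by simp⟩
  have m2 : M [2] = 1 := by simp [M, run]
  rcases (by omega : 2 * run 2 u + 2 ≤ u.length ∨ u.length = 2 * run 2 u + 1 ∨
    u.length = 2 * run 2 u) with h | h | h
  · obtain ⟨k1, k2, k3, k4, k5, k6⟩ := tog_spec hu hO h
    rcases k5 with k5 | k5
    · refine ⟨3, tog u, List.replicate T 1 ++ [], good_three k3 L_nil rfl (v3 k3 k4) (by simp [M])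
        (by omega) (by simp; omega), ?_⟩
      rw [back_three rfl (Or.inl (by simp [M]; omega)) (by omega), if_pos rfl, if_neg (by omega),
        k6, List.append_nil]
    · refine ⟨3, tog u, List.replicate T 1 ++ [2], good_three k3 (by simp) (by simp [run])
        (v4 k3 k4) (by omega) (by omega) (by simp; omega), ?_⟩
      rw [back_three (by simp [run]) (Or.inl (by omega)) (by omega), if_neg (by simp), if_pos rfl,
        if_neg (by omega), k6]
  · obtain ⟨y, a, rfl⟩ : ∃ y a, u = y ++ [a] := by
      rcases List.eq_nil_or_concat u with rfl | ⟨y, a, rfl⟩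
      · simp at h
      · exact ⟨y, a, by simp⟩
    obtain ⟨k1, k2⟩ := L_append.1 hu
    have k3 := (L_cons.1 k2).1
    have k4 : (y ++ [a]).length = y.length + 1 := by simp
    obtain rfl : a = 2 := by
      by_contra hn
      have := ones hu hO h.le (a := y.length) (by
        rw [List.getD_append_right _ _ _ _ le_rfl]; simp; omega)
      omega
    have k5 : run 2 (y ++ [2]) = run 2 y := run_app le_rfl y
    have k6 : Ok y := fun a b e ha hb => by
      have l1 := ones hu hO h.le (a := a) (by rwa [List.getD_append _ _ _ _ (by omega)])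
      have l2 := ones hu hO h.le (a := b) (by rwa [List.getD_append _ _ _ _ (by omega)])
      omega
    refine ⟨3, y, List.replicate (T + 1) 1 ++ [2], good_three k1 (by simp) (by simp [run])
      (v4 k1 k6) (by omega) (by omega) (by simp; omega), ?_⟩
    rw [back_three (by simp [run]) (Or.inl (by omega)) (by omega), if_neg (by simp), if_pos rfl,
      if_pos (by omega), Nat.add_sub_cancel]
  · rcases T with _ | T
    · obtain ⟨e, e1, -⟩ := strip hu
      obtain ⟨i, hi⟩ : ∃ i, i = run 2 u := ⟨_, rfl⟩
      have k1 : e.length = i := by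
        have := congrArg List.length e1
        simp at this; omega
      have k2 : e = List.replicate i 2 := List.eq_replicate_iff.2 ⟨k1, fun b hb => by
        obtain ⟨c, hc, rfl⟩ := List.getElem_of_mem hb
        have l1 : u.getD (i + c) 0 = e[c] := by
          rw [e1, ← hi, List.getD_append_right _ _ _ _ (by simp), List.length_replicate,
            Nat.add_sub_cancel_left, List.getD_eq_getElem _ _ hc]
        have l2 := hu.getD (i := i + c) (by omega)
        have l3 := ones hu hO (by omega) (a := i + c)
        omega⟩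
      rw [← hi, k2] at e1
      have k3 : u.sum = 3 * i := by rw [e1]; simp; omega
      have k4 : M (2 :: List.replicate i 1) = i + 1 := by
        have l1 := M_rep (z := []) i
        have l2 := run_rep (z := []) i
        rw [List.append_nil] at l1 l2
        simp [M, l1, l2, run]
      refine ⟨2, List.replicate (2 * i) 1, 2 :: List.replicate i 1, ⟨Or.inl rfl, L_rep (by omega),
        by simpa using L_rep (by omega), V_low ?_, by simp; omega, ?_⟩, ?_⟩
      · simp only [L_append, L_cons]
        exact ⟨⟨by omega, L_rep (by omega)⟩, by omega, L_rep (by omega)⟩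
      · rw [k4, B, if_pos rfl, List.length_replicate]; omega
      · rw [back, if_pos rfl, if_neg (by simp), show (κ - 2) / 2 = i by omega, ← e1]; rfl
    · have k5 : run 2 (u ++ [2]) = run 2 u := run_app le_rfl u
      have k1 : L 2 (u ++ [2]) := by simp [hu]
      have k4 : (u ++ [2]).length = u.length + 1 := by simp
      have k7 : ∀ a, (u ++ [2]).getD a 0 = 1 → a < run 2 u := fun a ha => by
        by_cases h' : a < u.length
        · exact ones hu hO (by omega) (by rwa [List.getD_append _ _ _ _ h'] at ha)
        · rw [List.getD_append_right _ _ _ _ (by omega)] at ha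
          rcases k : a - u.length with _ | c <;> simp [k] at ha
      have k6 : Ok (u ++ [2]) := fun a b e ha hb => by
        have l1 := k7 a ha
        have l2 := k7 b hb
        omega
      refine ⟨3, u ++ [2], List.replicate T 1 ++ [], good_three k1 L_nil rfl (v3 k1 k6)
        (by simp [M]) (by omega) (by simp; omega), ?_⟩
      rw [back_three rfl (Or.inl (by simp [M]; omega)) (by omega), if_pos rfl, if_pos (by omega),
        List.dropLast_concat]

/-- Every word of sum `g` comes from a word of sum `g + 1`. -/
theorem step (h : Good κ g r u z) :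
    ∃ r' u' z', Good κ (g + 1) r' u' z' ∧ back κ r' u' z' = (r, u, z) := by
  obtain ⟨h1, hu, hz, hV, hg, hκ⟩ := h
  rcases h1 with rfl | rfl
  · refine ⟨2, u, 1 :: z, ⟨Or.inl rfl, hu, by simp [hz], ⟨hV, by simp⟩, by simp; omega, ?_⟩,
      by simp [back]⟩
    simpa [M, B] using hκ
  rw [B, if_neg (by omega)] at hκ
  by_cases c1 : run 2 z + u.length + 2 < κ
  · refine ⟨3, u, 1 :: z, ⟨Or.inr rfl, hu, by simp [hz], ⟨hV, by simp⟩, by simp; omega, ?_⟩, ?_⟩
    · simp [M, B, run]; omega
    · rw [back, if_neg (by omega), if_pos (by simp [M, run]; omega)]; rfl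
  by_cases c2 : M z = κ ∧ run 2 z ≠ 0
  · obtain ⟨z, rfl⟩ := head_one hz c2.2
    have k1 : M (1 :: z) = M z := by simp [M]
    have k2 : run 2 (1 :: z) = run 2 z + 1 := by simp [run]
    have k3 : M (2 :: z) = κ := by simp [M]; omega
    refine ⟨3, u, 2 :: z, ⟨Or.inr rfl, hu, by simp [(L_cons.1 hz).2], ⟨hV.1, by simp⟩,
      by simp at hg ⊢; omega, ?_⟩, ?_⟩
    · rw [k3]; simp [B, run]; omega
    · rw [back, if_neg (by omega), if_neg (by simp [run]), if_pos ⟨k3, by omega⟩]; rfl
  obtain ⟨e, e1, e2⟩ := strip hz
  obtain ⟨T, hT⟩ : ∃ T, T = run 2 z := ⟨_, rfl⟩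
  rw [← hT] at e1 c1 c2 hκ
  subst e1
  rw [M_rep] at c2 hκ
  rw [List.append_assoc, V_rep] at hV
  have he := (L_append.1 hz).2
  replace hg : T + e.sum + 3 + u.sum = g := by simpa using hg
  by_cases c3 : e = []
  · subst c3
    rw [List.append_nil, ← hg]
    exact single (T := T) hu (hV.2 rfl) (by omega)
  obtain ⟨e', k1, k2, k3, k4, k5, k6, k7, k8⟩ :=
    core (ρ := if u.length + 2 = κ then κ else κ - 1) (u := u) (by split_ifs <;> omega) c3 e2 he hV
      (by split_ifs <;> omega)
  refine ⟨3, u, List.replicate T 1 ++ e', good_three hu k4 k3 k5 (by split_ifs at k6 <;> omega)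
    (by omega) (by omega), ?_⟩
  rw [back_three k3 (by split_ifs at k6 <;> omega) (by omega), if_neg k1, if_neg k2, k8]

end Pool.Agent.MP_0bb195_co.D3
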