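import Pool.Agent.MP_0bb195_co.sp.Kunz
import Pool.Agent.MP_0bb195_co.d3.Back

/-!
Gapsets of depth at most three and their Kunz words.
-/

namespace Pool.Agent.MP_0bb195_co.D3

open Finset Gap

variable {r x ρ κ g m : ℕ} {u z Z Z' : List ℕ} {G G' : Finset ℕ}

/-- Depth at most three. -/
def Gen (G : Finset ℕ) : Prop := ∀ x ∈ G, ∀ m, 0 < m → m ∉ G → x < 3 * m

/-- `Z` is the Kunz word of `G`, from the last letter to the first. -/
def R (G : Finset ℕ) (Z : List ℕ) : Prop :=
  IsMult G (Z.length + 1) ∧ ∀ i, i < Z.length + 1 → ∀ s,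
    i + (Z.length + 1) * s ∈ G ↔ s < Z.getD (Z.length - i) 0

lemma R_left (h : R G Z) (h' : R G' Z) : G = G' := by
  ext y
  have hm := h.1.1
  rw [← Nat.mod_add_div y (Z.length + 1), h.2 _ (Nat.mod_lt _ hm), h'.2 _ (Nat.mod_lt _ hm)]

lemma R_right (h : R G Z) (h' : R G Z') : Z = Z' := by
  have em : Z.length = Z'.length := by have := mult_unique h.1 h'.1; omega
  refine Sp.ext_getD em fun t ht => eq_of_forall_lt_iff fun s => ?_
  have k1 := h.2 (Z.length - t) (by omega) s
  have k2 := h'.2 (Z.length - t) (by omega) s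
  rw [← em] at k2
  rw [show Z.length - (Z.length - t) = t by omega] at k1 k2
  exact k1.symm.trans k2

lemma R_card (h : R G Z) : G.card = Z.sum := by
  rw [Sp.card_eq h.1.1 h.2, ← Sp.sum_getD Z]
  have := sum_range_reflect (fun t => Z.getD t 0) (Z.length + 1)
  simp only [Nat.add_sub_cancel] at this
  rw [this, sum_range_succ, List.getD_eq_default _ _ le_rfl, add_zero]

lemma V_iff : ∀ Z : List ℕ, V Z ↔ ∀ t a b, Z.getD t 0 = 3 → t + a + b + 2 = Z.length →
    Z.getD (t + 1 + a) 0 = 1 → Z.getD (t + 1 + b) 0 ≠ 1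
  | [] => by simp [V]
  | x :: Z => by
    rw [V, V_iff Z, List.length_cons]
    refine ⟨fun h t a b h1 h2 => ?_, fun h => ⟨fun t a b h1 h2 => ?_, fun e a b h2 => ?_⟩⟩
    · rcases t with _ | t
      · rw [show 0 + 1 + a = a + 1 by omega, show 0 + 1 + b = b + 1 by omega]
        exact h.2 h1 a b (by omega)
      · rw [show t + 1 + 1 + a = t + 1 + a + 1 by omega, show t + 1 + 1 + b = t + 1 + b + 1 by omega]
        exact h.1 t a b h1 (by omega)
    · have := h (t + 1) a b h1 (by omega)
      rwa [show t + 1 + 1 + a = t + 1 + a + 1 by omega,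
        show t + 1 + 1 + b = t + 1 + b + 1 by omega] at this
    · have := h 0 a b e (by omega)
      rwa [show 0 + 1 + a = a + 1 by omega, show 0 + 1 + b = b + 1 by omega] at this

lemma exists_word (hG : IsGapset G) (h3 : Gen G) : ∃ Z, L 3 Z ∧ V Z ∧ R G Z := by
  obtain ⟨m, hm⟩ := exists_mult G
  obtain ⟨n, rfl⟩ : ∃ n, m = n + 1 := ⟨m - 1, by have := hm.1; omega⟩
  have kz_iff := mem_iff_lt_kz hG hm
  set Z := (List.range n).map fun t => kz G (n + 1) (n - t) with hZ
  have lZ : Z.length = n := by simp [hZ]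
  have gZ : ∀ t, t < n → Z.getD t 0 = kz G (n + 1) (n - t) := fun t ht => Sp.getD_map_range ht
  refine ⟨Z, fun x hx => ?_, (V_iff Z).2 fun t a b h1 h2 ha hb => ?_, by rwa [lZ],
    fun i hi s => ?_⟩
  · obtain ⟨t, ht, rfl⟩ := List.mem_map.1 hx
    have := List.mem_range.1 ht
    refine ⟨(kz_iff _ 0).1 (hm.2.2 _ (by omega) (by omega)), kz_le fun h => ?_⟩
    have := h3 _ h _ hm.1 hm.2.1
    omega
  · rw [gZ _ (by omega)] at h1 ha hb
    have := kz_pair hG hm (i := n - (t + 1 + a)) (j := n - (t + 1 + b)) (t := 2) (by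
      rw [show n - (t + 1 + a) + (n - (t + 1 + b)) = n - t by omega, kz_iff]; omega)
    omega
  · rw [lZ] at hi ⊢
    rw [kz_iff]
    rcases Nat.eq_zero_or_pos i with rfl | h0
    · rw [List.getD_eq_default _ _ (by omega),
        Nat.le_zero.1 (kz_le (G := G) (m := n + 1) (i := 0) (j := 0) (by simpa using hG.1))]
    · rw [gZ _ (by omega), show n - (n - i) = i by omega]

lemma exists_gap (hL : L 3 Z) (hV : V Z) : ∃ G, IsGapset G ∧ Gen G ∧ R G Z := by
  obtain ⟨n, hn⟩ : ∃ n, n = Z.length := ⟨_, rfl⟩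
  have hm0 : 0 < n + 1 := by omega
  have le : ∀ t, Z.getD t 0 ≤ 3 := fun t => by
    by_cases h : t < Z.length
    · exact (hL.getD h).2
    · rw [List.getD_eq_default _ _ (by omega)]; omega
  have z0 : Z.getD (n - 0) 0 = 0 := List.getD_eq_default _ _ (by omega)
  set G := (range ((n + 1) * 3)).filter fun y => y / (n + 1) < Z.getD (n - y % (n + 1)) 0 with hG
  have key : ∀ i, i < n + 1 → ∀ s, i + (n + 1) * s ∈ G ↔ s < Z.getD (n - i) 0 := fun i hi s => by
    rw [hG, mem_filter, mem_range, Nat.add_mul_mod_self_left, Nat.mod_eq_of_lt hi,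
      Nat.add_mul_div_left _ _ hm0, Nat.div_eq_of_lt hi, zero_add]
    refine ⟨fun h => h.2, fun h => ⟨?_, h⟩⟩
    have k1 : (n + 1) * (s + 1) ≤ (n + 1) * 3 :=
      Nat.mul_le_mul_left _ (by have := le (n - i); omega)
    rw [mul_add] at k1
    omega
  have lt : ∀ y ∈ G, y < (n + 1) * 3 := fun y hy => mem_range.1 (mem_filter.1 hy).1
  have h0 : 0 ∉ G := fun h => by
    have := (key 0 hm0 0).1 (by simpa using h)
    omega
  have hm : IsMult G (n + 1) := ⟨hm0, fun h => by
    have := (key 0 hm0 1).1 (by simpa using h)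
    omega, fun x h1 h2 => by
    have := (key x h2 0).2 (hL.getD (by omega)).1
    simpa using this⟩
  refine ⟨G, gapset_of h0 hm fun y hy a b ha hb e => ?_, fun y hy m h1 h2 => ?_,
    by rwa [← hn], by rw [← hn]; exact key⟩
  · by_contra hc
    rw [not_or] at hc
    have := lt y hy
    obtain ⟨a, rfl⟩ := Nat.exists_eq_add_of_le ha
    obtain ⟨b, rfl⟩ := Nat.exists_eq_add_of_le hb
    have k1 : ¬ 1 < Z.getD (n - a) 0 := fun h =>
      hc.1 (by simpa only [mul_one, add_comm] using (key a (by omega) 1).2 h)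
    have k2 : ¬ 1 < Z.getD (n - b) 0 := fun h =>
      hc.2 (by simpa only [mul_one, add_comm] using (key b (by omega) 1).2 h)
    have k3 := (key (a + b) (by omega) 2).1 (by rwa [show a + b + (n + 1) * 2 = y by omega])
    have k4 := le (n - (a + b))
    have a0 : a ≠ 0 := fun e => by rw [e, zero_add] at k3; omega
    have b0 : b ≠ 0 := fun e => by rw [e, add_zero] at k3; omega
    have k5 := (hL.getD (i := n - a) (by omega)).1
    have k6 := (hL.getD (i := n - b) (by omega)).1
    refine (V_iff Z).1 hV (n - (a + b)) (b - 1) (a - 1) (by omega) (by omega) ?_ ?_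
    · rw [show n - (a + b) + 1 + (b - 1) = n - a by omega]; omega
    · rw [show n - (a + b) + 1 + (a - 1) = n - b by omega]; omega
  · have := lt y hy
    have : n + 1 ≤ m := not_lt.1 fun h => h2 (hm.2.2 m h1 h)
    omega

lemma near (h : x ≤ r) : run x z ≤ z.length ∧ x ≤ (z ++ r :: u).getD (run x z) 0 ∧
    ∀ c, c < run x z → (z ++ r :: u).getD c 0 < x := by
  have k1 := run_le (s := x) z
  have k2 := run_app (y := u) h z
  refine ⟨k1, ?_, fun c hc => run_lt _ c (by omega)⟩
  rw [← k2]
  exact run_ge _ (by simp; omega)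

lemma of_M_le : ∀ {z : List ℕ}, L r z → M z ≤ ρ → ∀ t, t < z.length →
    2 ≤ (z ++ r :: u).getD t 0 → ∃ d, d < ρ ∧ t + 1 + d ≤ z.length ∧
      (z ++ r :: u).getD t 0 ≤ (z ++ r :: u).getD (t + 1 + d) 0
  | [], _, _, _, h, _ => by simp at h
  | x :: z, hL, hM, 0, _, h => by
    replace h : 2 ≤ x := h
    rw [M, if_pos h, max_le_iff] at hM
    obtain ⟨k1, k2, -⟩ := near (z := z) (u := u) (L_cons.1 hL).1.2
    refine ⟨run x z, by omega, by simp; omega, ?_⟩
    rwa [show 0 + 1 + run x z = run x z + 1 by omega]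
  | x :: z, hL, hM, t + 1, ht, h => by
    rw [M, max_le_iff] at hM
    obtain ⟨d, k1, k2, k3⟩ := of_M_le (L_cons.1 hL).2 hM.1 t (by simpa using ht) h
    refine ⟨d, k1, by simp; omega, ?_⟩
    rwa [show t + 1 + 1 + d = t + 1 + d + 1 by omega]

lemma M_le_of : ∀ {z : List ℕ}, L r z → (∀ t, t < z.length → 2 ≤ (z ++ r :: u).getD t 0 →
    ∀ d, t + 1 + d ≤ z.length →
      (∀ c, c < d → (z ++ r :: u).getD (t + 1 + c) 0 < (z ++ r :: u).getD t 0) → d < ρ) → M z ≤ ρ
  | [], _, _ => Nat.zero_le _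
  | x :: z, hL, h => by
    rw [M, max_le_iff]
    refine ⟨M_le_of (L_cons.1 hL).2 fun t ht h2 d hd hc => h (t + 1) (by simpa using ht) h2 d
      (by simp; omega) fun c hc' => ?_, ?_⟩
    · rw [show t + 1 + 1 + c = t + 1 + c + 1 by omega]
      exact hc c hc'
    · split_ifs with h2
      · obtain ⟨k1, -, k3⟩ := near (z := z) (u := u) (L_cons.1 hL).1.2
        refine h 0 (by simp) h2 _ (by simp; omega) fun c hc => ?_
        rw [show 0 + 1 + c = c + 1 by omega]
        exact k3 c hc
      · omega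

lemma pred_le (hs : ∀ a b, Consec G a b → b - a ≤ ρ) {a b c : ℕ} (ha : a ∈ G) (hb : b ∈ G)
    (h1 : a ≤ c) (h2 : c < b) (h : ∀ y ∈ G, c < y → ¬ y < b) : b - c ≤ ρ := by
  obtain ⟨a', h3, h4⟩ := exists_top (G := G.filter (· ≤ c)) ⟨a, mem_filter.2 ⟨ha, h1⟩⟩
  obtain ⟨h5, h6⟩ := mem_filter.1 h3
  have := hs a' b ⟨h5, hb, by omega, fun y hy hh => by
    by_cases k : y ≤ c
    · have := h4 y (mem_filter.2 ⟨hy, k⟩); omega
    · exact h y hy (by omega) hh.2⟩
  omega

lemma sparse_iff (hr : r = 2 ∨ r = 3) (hu : L (r - 1) u) (hz : L r z) (h : R G (z ++ r :: u)) :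
    (∀ a b, Consec G a b → b - a ≤ ρ) ↔ max (M z) (B r u z) ≤ ρ := by
  obtain ⟨hm, key⟩ := h
  obtain ⟨Z, hZ⟩ : ∃ Z, Z = z ++ r :: u := ⟨_, rfl⟩
  obtain ⟨n, hn⟩ : ∃ n, n = z.length + u.length + 1 := ⟨_, rfl⟩
  have e : (z ++ r :: u).length = n := by simp; omega
  rw [e] at hm key
  have kr : (z ++ r :: u).getD z.length 0 = r := by
    rw [List.getD_append_right _ _ _ _ le_rfl]; simp
  have ku : ∀ t, z.length < t → (z ++ r :: u).getD t 0 ≤ r - 1 := fun t ht => by
    rw [List.getD_append_right _ _ _ _ ht.le, show t - z.length = t - z.length - 1 + 1 by omega,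
      List.getD_cons_succ]
    by_cases h : t - z.length - 1 < u.length
    · exact (hu.getD h).2
    · rw [List.getD_eq_default _ _ (by omega)]; omega
  have kz' : ∀ t, t < z.length → (z ++ r :: u).getD t 0 ≤ r := fun t ht => by
    rw [List.getD_append _ _ _ _ ht]; exact (hz.getD ht).2
  have n2 := near (x := 2) (r := r) (z := z) (u := u) (by omega)
  have hM1 := of_M_le (ρ := ρ) (u := u) hz
  have hM2 := M_le_of (ρ := ρ) (u := u) hz
  rw [← hZ] at key kr ku kz' n2 hM1 hM2
  have top : n ∈ G := hm.2.2 n (by omega) (by omega)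
  have mem : ∀ t, t ≤ n → ∀ s y, y + t = n + (n + 1) * s → (y ∈ G ↔ s < Z.getD t 0) :=
    fun t ht s y e => by
      have := key (n - t) (by omega) s
      rwa [show n - (n - t) = t by omega, show n - t + (n + 1) * s = y by omega] at this
  rw [max_le_iff]
  refine ⟨fun hs => ⟨hM2 fun t ht h2 d hd hc => ?_, ?_⟩, fun hs a b hab => ?_⟩
  · obtain ⟨s, hs'⟩ : ∃ s, Z.getD t 0 = s + 2 := ⟨Z.getD t 0 - 2, by omega⟩
    have e1 : (n + 1) * (s + 1) = (n + 1) * s + (n + 1) := by ring
    have := pred_le hs top (b := n - t + (n + 1) * (s + 1))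
      (c := n - (t + 1 + d) + (n + 1) * (s + 1)) ((mem t (by omega) (s + 1) _ (by omega)).2
        (by omega)) (by omega) (by omega) fun y hy h1 h3 => by
      have k1 := (mem (n + (n + 1) * (s + 1) - y) (by omega) (s + 1) y (by omega)).1 hy
      have k2 := hc (n + (n + 1) * (s + 1) - y - (t + 1)) (by omega)
      rw [show t + 1 + (n + (n + 1) * (s + 1) - y - (t + 1)) = n + (n + 1) * (s + 1) - y by omega]
        at k2
      omega
    omega
  · rcases hr with rfl | rfl
    · have := pred_le hs top (b := u.length + 1 + (n + 1)) (c := n)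
        ((mem z.length (by omega) 1 _ (by omega)).2 (by omega)) le_rfl (by omega)
        fun y hy h1 h3 => by
          have k1 := (mem (n + (n + 1) - y) (by omega) 1 y (by omega)).1 hy
          have k2 := ku (n + (n + 1) - y) (by omega)
          omega
      rw [B, if_pos rfl]; omega
    · have := pred_le hs top (b := u.length + 1 + (n + 1) * 2) (c := n - run 2 z + (n + 1))
        ((mem z.length (by omega) 2 _ (by omega)).2 (by omega)) (by omega) (by omega)
        fun y hy h1 h3 => by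
          by_cases k : y < (n + 1) * 2
          · have k1 := (mem (n + (n + 1) - y) (by omega) 1 y (by omega)).1 hy
            have k2 := n2.2.2 (n + (n + 1) - y) (by omega)
            omega
          · have k1 := (mem (n + (n + 1) * 2 - y) (by omega) 2 y (by omega)).1 hy
            have k2 := ku (n + (n + 1) * 2 - y) (by omega)
            omega
      rw [B, if_neg (by omega)]; omega
  · have hB : u.length + 2 ≤ ρ := by
      have := hs.2
      rw [B] at this
      split_ifs at this <;> omega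
    have fin : ∀ y ∈ G, y < b → b ≤ y + ρ → b - a ≤ ρ := fun y hy h1 h2 => by
      have := hab.2.2.2 y hy
      omega
    have lt := hab.2.2.1
    obtain ⟨i, s, hi, rfl⟩ : ∃ i s, i < n + 1 ∧ b = i + (n + 1) * s :=
      ⟨b % (n + 1), b / (n + 1), Nat.mod_lt _ (by omega), (Nat.mod_add_div b (n + 1)).symm⟩
    have k1 := (key i hi s).1 hab.2.1
    rcases s with _ | s
    · by_cases k : i ≤ 2
      · omega
      · exact fin (i - 1) (hm.2.2 _ (by omega) (by omega)) (by omega) (by omega)
    by_cases k : n - i < z.length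
    · obtain ⟨d, l1, l2, l3⟩ := hM1 hs.1 (n - i) k (by omega)
      exact fin (i - 1 - d + (n + 1) * (s + 1)) ((mem (n - i + 1 + d) (by omega) (s + 1) _
        (by omega)).2 (by omega)) (by omega) (by omega)
    rcases s with _ | s
    · exact fin n top (by omega) (by omega)
    have k2 : n - i = z.length := by
      by_contra hn'
      have := ku (n - i) (by omega)
      omega
    rw [k2, kr] at k1
    obtain rfl : r = 3 := by omega
    obtain rfl : s = 0 := by omega
    have := hs.2
    rw [B, if_neg (by omega)] at this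
    exact fin (n - run 2 z + (n + 1)) ((mem (run 2 z) (by omega) 1 _ (by omega)).2 (by omega))
      (by omega) (by omega)

end Pool.Agent.MP_0bb195_co.D3
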