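import Mathlib.Data.List.GetD
import Mathlib.Algebra.BigOperators.Group.List.Basic
import Mathlib.Algebra.Order.Group.Nat
import Mathlib.Tactic.Linarith
import Mathlib.Tactic.IntervalCases

/-!
Words over `1, 2, 3`, read from the last letter to the first, and the rewriting rules at the end
of a word that raise the sum by one.
-/

namespace Pool.Agent.MP_0bb195_co.D3

/-- Number of leading letters below `s`. -/
def run (s : ℕ) : List ℕ → ℕ
  | [] => 0
  | x :: z => if x < s then run s z + 1 else 0

/-- Largest distance from a letter `x ≥ 2` to the next letter that is at least `x`. -/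
def M : List ℕ → ℕ
  | [] => 0
  | x :: z => max (M z) (if 2 ≤ x then run x z + 1 else 0)

/-- A letter `3` may be put next to `y`. -/
def Ok (y : List ℕ) : Prop := ∀ a b, a + b + 1 = y.length → y.getD a 0 = 1 → y.getD b 0 ≠ 1

/-- Every letter `3` is allowed. -/
def V : List ℕ → Prop
  | [] => True
  | x :: y => V y ∧ (x = 3 → Ok y)

/-- All letters lie in `[1, r]`. -/
def L (r : ℕ) (z : List ℕ) : Prop := ∀ x ∈ z, 1 ≤ x ∧ x ≤ r

variable {r s x ρ κ g T : ℕ} {u z e y : List ℕ}

@[simp] lemma L_nil : L r [] := fun _ h => by simp at h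

@[simp] lemma L_cons : L r (x :: z) ↔ (1 ≤ x ∧ x ≤ r) ∧ L r z := List.forall_mem_cons

@[simp] lemma L_append : L r (y ++ z) ↔ L r y ∧ L r z := List.forall_mem_append

lemma L_rep {n : ℕ} (h : 1 ≤ x ∧ x ≤ r) : L r (List.replicate n x) := fun y hy => by
  rw [List.eq_of_mem_replicate hy]; exact h

lemma L.getD (h : L r z) {i : ℕ} (hi : i < z.length) : 1 ≤ z.getD i 0 ∧ z.getD i 0 ≤ r := by
  rw [List.getD_eq_getElem _ _ hi]
  exact h _ (List.getElem_mem hi)

lemma run_mono : ∀ z : List ℕ, run 2 z ≤ run 3 z
  | [] => le_rfl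
  | x :: z => by
    have := run_mono z
    simp only [run]
    split_ifs <;> omega

lemma run_rep : ∀ n, run 2 (List.replicate n 1 ++ z) = n + run 2 z
  | 0 => by simp
  | n + 1 => by
    rw [List.replicate_succ, List.cons_append, run, if_pos (by omega), run_rep n]; omega

lemma M_rep : ∀ n, M (List.replicate n 1 ++ z) = M z
  | 0 => by simp
  | n + 1 => by
    rw [List.replicate_succ, List.cons_append, M, if_neg (by omega), M_rep n]; omega

lemma V_rep : ∀ n, V (List.replicate n 1 ++ z) ↔ V z
  | 0 => by simp
  | n + 1 => by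
    rw [List.replicate_succ, List.cons_append, V, V_rep n]; simp

lemma V_low : ∀ {z : List ℕ}, L 2 z → V z
  | [], _ => trivial
  | x :: z, h => ⟨V_low (L_cons.1 h).2, fun e => by have := (L_cons.1 h).1; omega⟩

lemma strip : ∀ {z : List ℕ}, L r z →
    ∃ e, z = List.replicate (run 2 z) 1 ++ e ∧ run 2 e = 0
  | [], _ => ⟨[], rfl, rfl⟩
  | x :: z, h => by
    obtain ⟨h1, h2⟩ := L_cons.1 h
    by_cases hx : x < 2
    · obtain ⟨e, e1, e2⟩ := strip h2
      obtain rfl : x = 1 := by omega
      refine ⟨e, ?_, e2⟩
      rw [run, if_pos hx, List.replicate_succ, List.cons_append, ← e1]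
    · exact ⟨x :: z, by rw [run, if_neg hx]; rfl, by rw [run, if_neg hx]⟩

lemma ok_raise (h : Ok (1 :: y)) : Ok (2 :: y) := fun a b e ha hb => by
  refine h a b e ?_ ?_
  · cases a <;> simp_all
  · cases b <;> simp_all

lemma ok_lower (h : Ok (2 :: (y ++ [3]))) : Ok (1 :: (y ++ [3])) := fun a b e ha hb => by
  have k : (1 :: (y ++ [3])).getD (y.length + 1) 0 = 3 := by
    rw [List.getD_cons_succ, List.getD_append_right _ _ _ _ le_rfl]; simp
  simp only [List.length_cons, List.length_append, List.length_nil] at e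
  rcases a with _ | a
  · rw [show b = y.length + 1 by omega, k] at hb; omega
  rcases b with _ | b
  · rw [show a + 1 = y.length + 1 by omega, k] at ha; omega
  exact h (a + 1) (b + 1) (by simpa using e) ha hb

/-- The inverse of the rules at the end of the word. -/
def bk (ρ : ℕ) (e : List ℕ) : List ℕ :=
  if e.getD 0 0 = 2 then
    if e.getD 1 0 = 1 then 2 :: e.drop 2
    else if e.getD 1 0 = 2 then
      if ρ = 2 then (if e.getD 2 0 = 1 then 3 :: 3 :: e.drop 4 else 2 :: 1 :: e.drop 2)
      else (if e.getD 2 0 = 1 then 2 :: 1 :: e.drop 2 else 3 :: e.drop 2)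
    else 3 :: 2 :: e.drop 3
  else if e.getD 1 0 = 2 then 3 :: 1 :: e.drop 2 else [3]

lemma head_ne (h : run 2 e = 0) : e.getD 0 0 ≠ 1 := by
  cases e with
  | nil => simp
  | cons x e =>
    intro k
    obtain rfl : x = 1 := k
    simp [run] at h

lemma head_one (hL : L 3 e) (h : run 2 e ≠ 0) : ∃ e', e = 1 :: e' := by
  cases e with
  | nil => exact absurd rfl h
  | cons x e =>
    have := (L_cons.1 hL).1
    by_cases hx : x < 2
    · exact ⟨e, by rw [show x = 1 by omega]⟩
    · exact absurd (by rw [run, if_neg hx]) h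

/-- The rules for words that end in a letter `≥ 2` after the first `3`. -/
lemma core (hρ : u.length + 2 ≤ ρ) (h0 : e ≠ []) (h1 : run 2 e = 0) (hL : L 3 e)
    (hV : V (e ++ 3 :: u)) (hM : M e ≤ ρ) :
    ∃ e', e' ≠ [] ∧ e' ≠ [2] ∧ run 2 e' = 0 ∧ L 3 e' ∧ V (e' ++ 3 :: u) ∧ M e' ≤ ρ ∧
      e'.sum = e.sum + 1 ∧ bk ρ e' = e := by
  obtain ⟨x, e, rfl⟩ := List.exists_cons_of_ne_nil h0
  have hx := (L_cons.1 hL).1
  replace hL := (L_cons.1 hL).2
  have hx1 : x ≠ 1 := head_ne h1
  have hV1 : V (e ++ 3 :: u) := hV.1
  have hm := run_mono e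
  rcases (by omega : x = 2 ∨ x = 3) with rfl | rfl
  · simp only [M, le_refl, if_true, max_le_iff] at hM
    by_cases hr : run 2 e + 1 < ρ
    · refine ⟨2 :: 1 :: e, by simp, by simp, by simp [run], by simp [hL], by simp [V, hV1], ?_,
        by simp; omega, by simp [bk]⟩
      simp [M, run]; omega
    · obtain ⟨e, rfl⟩ := head_one hL (by omega)
      replace hL := (L_cons.1 hL).2
      have hV2 : V (e ++ 3 :: u) := hV1.1
      simp only [M, run, Nat.one_lt_ofNat, if_true] at hM hr
      refine ⟨2 :: 2 :: e, by simp, by simp, by simp [run], by simp [hL], by simp [V, hV2], ?_,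
        by simp; omega, ?_⟩
      · simp [M, run] at hM ⊢; omega
      by_cases h2 : ρ = 2
      · have := head_ne (e := e) (by omega)
        simp only [bk, List.getD_cons_zero, List.getD_cons_succ, if_true, if_pos h2, if_neg this]
        simp
      · obtain ⟨e, rfl⟩ := head_one hL (by omega)
        simp [bk, h2]
  · have hO : Ok (e ++ 3 :: u) := hV.2 rfl
    simp only [M, Nat.reduceLeDiff, if_true, max_le_iff] at hM
    by_cases hr : run 2 e = 0
    · by_cases h2 : ρ = 2
      · obtain rfl : u = [] := List.eq_nil_of_length_eq_zero (by omega)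
        subst h2
        rcases e with _ | ⟨y, e⟩
        · refine ⟨[3, 1], by simp, by simp, by simp [run], by simp, ?_, by simp [M, run], by simp,
            by simp [bk]⟩
          refine ⟨⟨hV1, by simp⟩, fun _ a b h ha hb => ?_⟩
          replace h : a + b + 1 = 2 := h
          rcases a with _ | a
          · obtain rfl : b = 1 := by omega
            simp at hb
          · obtain rfl : a = 0 := by omega
            simp at ha
        have hy := (L_cons.1 hL).1
        replace hL := (L_cons.1 hL).2
        have hy1 : y ≠ 1 := head_ne hr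
        have hV2 : V (e ++ [3]) := hV1.1
        have hm := run_mono e
        rcases (by omega : y = 2 ∨ y = 3) with rfl | rfl
        · refine ⟨2 :: 3 :: 1 :: e, by simp, by simp, by simp [run], by simp [hL], ?_, ?_,
            by simp; omega, by simp [bk]⟩
          · exact ⟨⟨⟨hV2, by simp⟩, fun _ => ok_lower hO⟩, by simp⟩
          · simp [M, run] at hM ⊢; omega
        · refine ⟨2 :: 2 :: 1 :: 2 :: e, by simp, by simp, by simp [run], by simp [hL],
            by simp [V, hV2], ?_, by simp; omega, by simp [bk]⟩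
          simp [M, run] at hM ⊢; omega
      · refine ⟨2 :: 2 :: e, by simp, by simp, by simp [run], by simp [hL], by simp [V, hV1], ?_,
          by simp; omega, ?_⟩
        · simp [M, run]; omega
        · have := head_ne hr
          simp only [bk, List.getD_cons_zero, List.getD_cons_succ, if_true, if_neg h2, if_neg this]
          simp
    · obtain ⟨e, rfl⟩ := head_one hL hr
      replace hL := (L_cons.1 hL).2
      have hm := run_mono e
      refine ⟨3 :: 2 :: e, by simp, by simp, by simp [run], by simp [hL],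
        ⟨⟨hV1.1, by simp⟩, fun _ => ok_raise hO⟩, ?_, by simp; omega, by simp [bk]⟩
      simp [M, run] at hM ⊢; omega

end Pool.Agent.MP_0bb195_co.D3
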