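import Pool.Agent.MP_0bb195_co.d3.Bridge

/-!
The injection for gapsets of depth at most three.
-/

namespace Pool.Agent.MP_0bb195_co.D3

open Finset Gap

variable {r r' x ρ κ g m : ℕ} {u u' z Z : List ℕ} {G H : Finset ℕ}

lemma split : ∀ {Z : List ℕ}, r ∈ Z → ∃ z u, Z = z ++ r :: u ∧ r ∉ u
  | [], h => by simp at h
  | x :: Z, h => by
    by_cases k : r ∈ Z
    · obtain ⟨z, u, e, h'⟩ := split k
      exact ⟨x :: z, u, by rw [e]; rfl, h'⟩
    · obtain rfl : r = x := (List.mem_cons.1 h).resolve_right k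
      exact ⟨[], Z, rfl, k⟩

lemma cut_inj (hr : 1 ≤ r) (hr' : 1 ≤ r') (hu : L (r - 1) u) (hu' : L (r' - 1) u') :
    ∀ {z z' : List ℕ}, L r z → L r' z' → z ++ r :: u = z' ++ r' :: u' →
      r = r' ∧ u = u' ∧ z = z'
  | [], [], _, _, e => by simpa using e
  | [], x :: z', _, h', e => by
    obtain ⟨e1, e2⟩ := List.cons.inj e
    have k1 := (L_cons.1 h').1
    have k2 := hu r' (by rw [show u = z' ++ r' :: u' from e2]; simp)
    omega
  | x :: z, [], h, _, e => by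
    obtain ⟨e1, e2⟩ := List.cons.inj e
    have k1 := (L_cons.1 h).1
    have k2 := hu' r (by rw [← show z ++ r :: u = u' from e2]; simp)
    omega
  | x :: z, x' :: z', h, h', e => by
    obtain ⟨e1, e2⟩ := List.cons.inj e
    obtain ⟨k1, k2, k3⟩ := cut_inj hr hr' hu hu' (L_cons.1 h).2 (L_cons.1 h').2 e2
    exact ⟨k1, k2, by rw [e1, k3]⟩

lemma maxDiff_iff (hκ : 1 ≤ κ) (hr : r = 2 ∨ r = 3) (hu : L (r - 1) u) (hz : L r z)
    (h : R G (z ++ r :: u)) : MaxDiff κ G ↔ max (M z) (B r u z) = κ := by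
  have k1 := sparse_iff (ρ := κ) hr hu hz h
  have k2 := sparse_iff (ρ := κ - 1) hr hu hz h
  refine ⟨fun ⟨h1, a, b, h2, h3⟩ => ?_, fun e => ⟨k1.2 e.le, ?_⟩⟩
  · have l1 := k1.1 h1
    by_contra hn
    have := k2.2 (by omega) a b h2
    omega
  · by_contra hn
    have := k2.1 fun a b hab => by
      have l1 := k1.2 e.le a b hab
      have l2 : b - a ≠ κ := fun h => hn ⟨a, b, hab, h⟩
      omega
    omega

/-- The Kunz word is cut at its first largest letter, or all its letters are `1`. -/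
lemma cut (hL : L 3 Z) :
    (∃ r u z, (r = 2 ∨ r = 3) ∧ L (r - 1) u ∧ L r z ∧ Z = z ++ r :: u) ∨ L 1 Z := by
  by_cases h3 : 3 ∈ Z
  · obtain ⟨z, u, rfl, h⟩ := split h3
    obtain ⟨k1, k2⟩ := L_append.1 hL
    refine Or.inl ⟨3, u, z, Or.inr rfl, fun x hx => ?_, k1, rfl⟩
    have := (L_cons.1 k2).2 x hx
    have : x ≠ 3 := fun e => h (e ▸ hx)
    omega
  have h2 : L 2 Z := fun x hx => by
    have := hL x hx
    have : x ≠ 3 := fun e => h3 (e ▸ hx)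
    omega
  by_cases h : 2 ∈ Z
  · obtain ⟨z, u, rfl, h'⟩ := split h
    obtain ⟨k1, k2⟩ := L_append.1 h2
    refine Or.inl ⟨2, u, z, Or.inl rfl, fun x hx => ?_, k1, rfl⟩
    have := (L_cons.1 k2).2 x hx
    have : x ≠ 2 := fun e => h' (e ▸ hx)
    omega
  · refine Or.inr fun x hx => ?_
    have := h2 x hx
    have : x ≠ 2 := fun e => h (e ▸ hx)
    omega

lemma of_ones (hL : L 1 Z) (h : R G Z) : G = Icc 1 G.card := by
  have e : G = Icc 1 Z.length := by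
    ext y
    rw [mem_Icc]
    refine ⟨fun hy => ?_, fun hy => h.1.2.2 y hy.1 (by omega)⟩
    obtain ⟨i, s, hi, rfl⟩ : ∃ i s, i < Z.length + 1 ∧ y = i + (Z.length + 1) * s :=
      ⟨y % (Z.length + 1), y / (Z.length + 1), Nat.mod_lt _ (by omega),
        (Nat.mod_add_div y _).symm⟩
    have k1 := (h.2 i hi s).1 hy
    rcases Nat.eq_zero_or_pos i with rfl | h0
    · rw [List.getD_eq_default _ _ (by omega)] at k1; omega
    have k2 := hL.getD (i := Z.length - i) (by omega)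
    obtain rfl : s = 0 := by omega
    omega
  have : G.card = Z.length := by rw [e]; simp
  rwa [this]

lemma diff_Icc {a b : ℕ} (h : Consec (Icc 1 g) a b) : b - a ≤ 1 := by
  have k1 := mem_Icc.1 h.1
  have k2 := mem_Icc.1 h.2.1
  by_contra hn
  exact h.2.2.2 (a + 1) (mem_Icc.2 (by omega)) (by omega)

lemma exists_good (hκ : 2 ≤ κ) (hG : Mem κ g G) (h3 : Gen G) :
    ∃ r u z, Good κ g r u z ∧ R G (z ++ r :: u) := by
  obtain ⟨Z, k1, k2, k3⟩ := exists_word hG.1 h3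
  rcases cut k1 with ⟨r, u, z, l1, l2, l3, rfl⟩ | h
  · refine ⟨r, u, z, ⟨l1, l2, l3, k2, ?_, (maxDiff_iff (by omega) l1 l2 l3 k3).1 hG.2.2⟩, k3⟩
    rw [← hG.2.1, R_card k3]
    simp; omega
  · obtain ⟨a, b, l1, l2⟩ := hG.2.2.2
    rw [of_ones h k3] at l1
    have := diff_Icc l1
    omega

lemma of_good (hκ : 1 ≤ κ) (h : Good κ g r u z) :
    ∃ G, (Mem κ g G ∧ Gen G) ∧ R G (z ++ r :: u) := by
  obtain ⟨l1, l2, l3, l4, l5, l6⟩ := h
  obtain ⟨G, k1, k2, k3⟩ := exists_gap (Z := z ++ r :: u) (by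
    simp only [L_append, L_cons]
    exact ⟨fun x hx => by have := l3 x hx; omega, by omega,
      fun x hx => by have := l2 x hx; omega⟩) l4
  refine ⟨G, ⟨⟨k1, ?_, (maxDiff_iff hκ l1 l2 l3 k3).2 l6⟩, k2⟩, k3⟩
  rw [R_card k3, ← l5]
  simp; omega

/-- The graph of the injection. -/
def Rel (κ g : ℕ) (G H : Finset ℕ) : Prop :=
  ∃ r u z r' u' z', R G (z ++ r :: u) ∧ Good κ (g + 1) r' u' z' ∧ R H (z' ++ r' :: u') ∧
    back κ r' u' z' = (r, u, z)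

lemma exists_rel (hκ : 2 ≤ κ) (hG : Mem κ g G) (h3 : Gen G) :
    ∃ H, (Mem κ (g + 1) H ∧ Gen H) ∧ Rel κ g G H := by
  obtain ⟨r, u, z, k1, k2⟩ := exists_good hκ hG h3
  obtain ⟨r', u', z', k3, k4⟩ := step k1
  obtain ⟨H, k5, k6⟩ := of_good (by omega) k3
  exact ⟨H, k5, r, u, z, r', u', z', k2, k3, k6, k4⟩

lemma rel_inj {G' : Finset ℕ} (h : Rel κ g G H) (h' : Rel κ g G' H) : G = G' := by
  obtain ⟨r, u, z, s, v, y, k1, k2, k3, k4⟩ := h
  obtain ⟨r', u', z', s', v', y', l1, l2, l3, l4⟩ := h'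
  obtain ⟨rfl, rfl, rfl⟩ := cut_inj (by have := k2.1; omega) (by have := l2.1; omega) k2.2.1
    l2.2.1 k2.2.2.1 l2.2.2.1 (R_right k3 l3)
  rw [k4] at l4
  obtain ⟨rfl, rfl, rfl⟩ : r = r' ∧ u = u' ∧ z = z' := by simpa using l4
  exact R_left k1 l1

lemma eq_Icc (hG : G ∈ pureSparse 1 g) (h3 : Gen G) : G = Icc 1 g ∧ 1 ≤ g := by
  obtain ⟨h1, h2, h⟩ := hG
  rcases h with h | h | h
  · obtain ⟨Z, k1, -, k3⟩ := exists_word h1 h3
    rcases cut k1 with ⟨r, u, z, l1, l2, l3, rfl⟩ | h'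
    · have := (maxDiff_iff le_rfl l1 l2 l3 k3).1 h
      rw [B] at this
      split_ifs at this <;> omega
    · obtain ⟨a, b, l1, -⟩ := h.2
      exact ⟨h2 ▸ of_ones h' k3, h2 ▸ card_pos.2 ⟨a, l1.1⟩⟩
  · omega
  · rw [h.1, card_singleton] at h2
    rw [h.1, ← h2]
    exact ⟨rfl, le_rfl⟩

lemma Icc_mem (hg : 1 ≤ g) : Icc 1 (g + 1) ∈ pureSparse 1 (g + 1) ∧ Gen (Icc 1 (g + 1)) := by
  refine ⟨⟨⟨by simp, fun y hy a b ha hb e => Or.inl ?_⟩, by simp, Or.inl ⟨fun a b => diff_Icc,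
    1, 2, ⟨by simp, by simp; omega, by omega, fun c _ => by omega⟩, rfl⟩⟩, fun y hy m h1 h2 => ?_⟩
  · rw [mem_Icc] at hy ⊢; omega
  · rw [mem_Icc] at hy h2; omega

theorem main (hκ : 1 ≤ κ) : ∃ f : {G // G ∈ pureSparse κ g ∧ Gen G} →
    {G // G ∈ pureSparse κ (g + 1) ∧ Gen G}, Function.Injective f := by
  rcases hκ.eq_or_lt with rfl | hκ
  · exact ⟨fun G => ⟨_, Icc_mem (eq_Icc G.2.1 G.2.2).2⟩, fun G G' _ =>
      Subtype.ext ((eq_Icc G.2.1 G.2.2).1.trans (eq_Icc G'.2.1 G'.2.2).1.symm)⟩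
  have key : ∀ G : {G // G ∈ pureSparse κ g ∧ Gen G},
      ∃ H : {G // G ∈ pureSparse κ (g + 1) ∧ Gen G}, Rel κ g G.1 H.1 := fun G => by
    obtain ⟨⟨h1, h2, h⟩, h3⟩ := G.2
    obtain ⟨H, k1, k2⟩ := exists_rel hκ ⟨h1, h2, by
      rcases h with h | h | h
      · exact h
      · omega
      · omega⟩ h3
    exact ⟨⟨H, ⟨k1.1.1, k1.1.2.1, Or.inl k1.1.2.2⟩, k1.2⟩, k2⟩
  choose f hf using key
  exact ⟨f, fun G G' e => Subtype.ext (rel_inj (hf G) (e ▸ hf G'))⟩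

/-- For `2 g ≤ 3 κ + 1` every gapset of the family has depth at most three. -/
theorem gen_of_le (hG : G ∈ pureSparse κ g) (h : 2 * g ≤ 3 * κ + 1) : Gen G := by
  intro x hx m h1 h2
  have k1 := top_lt hG.1 hx
  rw [hG.2.1] at k1
  have k2 : x ≠ 3 * m := fun e => add_mul_notMem hG.1 h2 hG.1.1 3 (by
    rwa [zero_add, mul_comm, ← e])
  have k3 : κ ≤ m := by
    rcases hG.2.2 with ⟨-, a, b, l1, l2⟩ | l | l
    · by_contra hn
      rcases hG.1.2 b l1.2.1 m (b - m) h1 (by omega) (by omega) with l | l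
      · exact h2 l
      · exact l1.2.2.2 _ l (by omega)
    · omega
    · omega
  omega

/-- The question for all pairs with `2 g ≤ 3 κ + 1`. -/
theorem of_le (hκ : 1 ≤ κ) (h : 2 * g ≤ 3 * κ + 1) :
    ∃ f : pureSparse κ g → pureSparse κ (g + 1), Function.Injective f := by
  obtain ⟨f, hf⟩ := main (g := g) hκ
  refine ⟨fun G => ⟨(f ⟨G.1, G.2, gen_of_le G.2 h⟩).1, (f _).2.1⟩, fun G G' e => ?_⟩
  have e1 : (f ⟨G.1, G.2, gen_of_le G.2 h⟩).1 = (f ⟨G'.1, G'.2, gen_of_le G'.2 h⟩).1 :=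
    congrArg (fun t : pureSparse κ (g + 1) => t.1) e
  have e2 : G.1 = G'.1 := congrArg (fun t : {G // G ∈ pureSparse κ g ∧ Gen G} => t.1)
    (hf (Subtype.ext e1))
  exact Subtype.ext e2

end Pool.Agent.MP_0bb195_co.D3
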